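import Mathlib

/-!
# Global and local Galois cohomology of `ℓ`-adic representations of a number field, by cocycles

The absolute Galois group of a number field, decomposition and inertia groups at chosen primes of
the algebraic closure, continuous cocycles, and the classical duality theorems of Poitou and Tate
as statements.
-/

set_option autoImplicit false

namespace Pool.Agent.W522.E

open NumberField IsDedekindDomain

/-- The absolute Galois group of `k`, with its Krull topology. -/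
abbrev Gk (k : Type) [Field k] : Type := AlgebraicClosure k ≃ₐ[k] AlgebraicClosure k

/-- A maximal ideal `Q` of the ring of all algebraic integers of the algebraic closure of `k`
lying over the prime `v` of `k`, seen as a subset of the algebraic closure. -/
structure PrimeAbove (k : Type) [Field k] [NumberField k] (v : HeightOneSpectrum (𝓞 k)) where
  /-- the ideal, as a set -/
  Q : Set (AlgebraicClosure k)
  ideal : ∃ J : Ideal (integralClosure ℤ (AlgebraicClosure k)), J.IsMaximal ∧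
    Q = Subtype.val '' (J : Set (integralClosure ℤ (AlgebraicClosure k)))
  liesOver : ∀ x : 𝓞 k, algebraMap k (AlgebraicClosure k) (x : k) ∈ Q ↔ x ∈ v.asIdeal

section Groups

variable {k : Type} [Field k] [NumberField k]

/-- A choice of a prime of the algebraic closure over every prime of `k`. -/
abbrev Choice (k : Type) [Field k] [NumberField k] : Type :=
  ∀ v : HeightOneSpectrum (𝓞 k), PrimeAbove k v

/-- The decomposition group at `v`. -/
noncomputable def Dec (P : Choice k) (v : HeightOneSpectrum (𝓞 k)) : Subgroup (Gk k) where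
  carrier := {g | ∀ x, g x ∈ (P v).Q ↔ x ∈ (P v).Q}
  mul_mem' := by
    intro a b ha hb x
    exact (ha (b x)).trans (hb x)
  one_mem' := by
    intro x
    exact Iff.rfl
  inv_mem' := by
    intro a ha x
    have h := ha (a⁻¹ x)
    have h2 : a (a⁻¹ x) = x := by
      have := congrArg (fun f : Gk k => f x) (mul_inv_cancel a)
      simpa using this
    rw [h2] at h
    exact h.symm

/-- The inertia group at `v` (as a set of elements of the decomposition group). -/
def Ine (P : Choice k) (v : HeightOneSpectrum (𝓞 k)) : Set (Gk k) :=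
  {g | g ∈ Dec P v ∧ ∀ x, IsIntegral ℤ x → g x - x ∈ (P v).Q}

/-- `φ` is a Frobenius element at `v`. -/
def IsFrob (P : Choice k) (v : HeightOneSpectrum (𝓞 k)) (φ : Gk k) : Prop :=
  φ ∈ Dec P v ∧ ∀ x, IsIntegral ℤ x → φ x - x ^ (Ideal.absNorm v.asIdeal) ∈ (P v).Q

/-- The closed normal subgroup generated by the inertia groups outside `S`; the quotient by it is
the group `G_S` of the maximal extension unramified outside `S` (at the finite places). -/
noncomputable def NS (P : Choice k) (S : Set (HeightOneSpectrum (𝓞 k))) : Subgroup (Gk k) :=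
  (Subgroup.normalClosure (⋃ v ∈ Sᶜ, Ine P v)).topologicalClosure

/-- The classical fact that the decomposition group is topologically generated by inertia and any
Frobenius element, and that Frobenius elements exist. -/
def FrobeniusGenerates (P : Choice k) : Prop :=
  ∀ v : HeightOneSpectrum (𝓞 k), (∃ φ, IsFrob P v φ) ∧
    ∀ φ, IsFrob P v φ → Dec P v ≤ (Subgroup.closure (insert φ (Ine P v))).topologicalClosure

end Groups

section Coefficients

variable (ℓ : ℕ) [Fact ℓ.Prime]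

/-- The space `ℚ_ℓ^n`. -/
abbrev V (n : ℕ) : Type := Fin n → ℚ_[ℓ]

variable {k : Type} [Field k]

/-- The `ℓ`-adic cyclotomic character of `k`. -/
noncomputable def chi (k : Type) [Field k] : Gk k →* ℚ_[ℓ] :=
  (algebraMap ℤ_[ℓ] ℚ_[ℓ] : ℤ_[ℓ] →* ℚ_[ℓ]).comp ((Units.coeHom ℤ_[ℓ]).comp
    ((cyclotomicCharacter (AlgebraicClosure k) ℓ).comp
      (MulSemiringAction.toRingAut (Gk k) (AlgebraicClosure k))))

variable {ℓ}

/-- A representation on `ℚ_ℓ^n` is continuous. -/
def Cont {n : ℕ} (ρ : Gk k →* Module.End ℚ_[ℓ] (V ℓ n)) : Prop :=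
  Continuous fun p : Gk k × V ℓ n => ρ p.1 p.2

/-- A representation is irreducible (or zero). -/
def Irred {n : ℕ} (ρ : Gk k →* Module.End ℚ_[ℓ] (V ℓ n)) : Prop :=
  ∀ U : Submodule ℚ_[ℓ] (V ℓ n), (∀ g, ∀ x ∈ U, ρ g x ∈ U) → U = ⊥ ∨ U = ⊤

/-- Continuous `1`-cocycles of the subgroup `D`. -/
def OneCocycle {n : ℕ} (D : Subgroup (Gk k)) (ρ : Gk k →* Module.End ℚ_[ℓ] (V ℓ n))
    (c : Gk k → V ℓ n) : Prop :=
  ContinuousOn c D ∧ ∀ g ∈ D, ∀ h ∈ D, c (g * h) = c g + ρ g (c h)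

/-- Continuous `2`-cocycles of the subgroup `D`. -/
def TwoCocycle {n : ℕ} (D : Subgroup (Gk k)) (ρ : Gk k →* Module.End ℚ_[ℓ] (V ℓ n))
    (z : Gk k → Gk k → V ℓ n) : Prop :=
  ContinuousOn (fun p : Gk k × Gk k => z p.1 p.2) ((D : Set (Gk k)) ×ˢ (D : Set (Gk k))) ∧
    ∀ g ∈ D, ∀ h ∈ D, ∀ j ∈ D, ρ g (z h j) - z (g * h) j + z g (h * j) - z g h = 0

/-- The `2`-cocycle `z` is the coboundary of the continuous cochain `y` on `D`. -/
def Bounds {n : ℕ} (D : Subgroup (Gk k)) (ρ : Gk k →* Module.End ℚ_[ℓ] (V ℓ n))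
    (y : Gk k → V ℓ n) (z : Gk k → Gk k → V ℓ n) : Prop :=
  ContinuousOn y D ∧ ∀ g ∈ D, ∀ h ∈ D, z g h = ρ g (y h) - y (g * h) + y g

/-- The operator `A` is semisimple at the scalar `c`: the generalised eigenspace is the
eigenspace. -/
def SemisimpleAt {n : ℕ} (A : Module.End ℚ_[ℓ] (V ℓ n)) (c : ℚ_[ℓ]) : Prop :=
  ∀ x, (A - algebraMap ℚ_[ℓ] _ c) ((A - algebraMap ℚ_[ℓ] _ c) x) = 0 →
    (A - algebraMap ℚ_[ℓ] _ c) x = 0

end Coefficients

section Duality

variable {ℓ : ℕ} [Fact ℓ.Prime] {k : Type} [Field k] [NumberField k] (P : Choice k)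

/-- The representation is unramified outside `S`. -/
def UnramRep (S : Set (HeightOneSpectrum (𝓞 k))) {n : ℕ}
    (ρ : Gk k →* Module.End ℚ_[ℓ] (V ℓ n)) : Prop :=
  ∀ v, v ∉ S → ∀ g ∈ Ine P v, ρ g = 1

/-- The cocycle is unramified outside `S`. -/
def UnramCoc (S : Set (HeightOneSpectrum (𝓞 k))) {n : ℕ} (c : Gk k → V ℓ n) : Prop :=
  ∀ v, v ∉ S → ∀ g ∈ Ine P v, c g = 0

/-- The local-global principle for `H²` of the representation `W = (ℚ_ℓ^n, ρ)`: a class of
`H²(G_S, W)` which vanishes at all finite places vanishes in `H²(G_S', W)` for some finite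
`S'`. -/
def HasseTwo {n : ℕ} (ρ : Gk k →* Module.End ℚ_[ℓ] (V ℓ n)) : Prop :=
  ∀ S : Set (HeightOneSpectrum (𝓞 k)), S.Finite → UnramRep P S ρ →
    ∀ z : Gk k → Gk k → V ℓ n, TwoCocycle ⊤ ρ z →
      (∀ a ∈ NS P S, ∀ b ∈ NS P S, ∀ g h, z (g * a) (h * b) = z g h) →
      (∀ v, ∃ y, Bounds (Dec P v) ρ y z) →
      ∃ S' : Set (HeightOneSpectrum (𝓞 k)), S'.Finite ∧ S ⊆ S' ∧
        ∃ y, Bounds ⊤ ρ y z ∧ ∀ g, ∀ a ∈ NS P S', y (g * a) = y g

/-- Weak approximation for `H¹` of the representation `W` modulo local conditions `Loc` at the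
places of `T`: local classes at the places of `T` are, up to classes which satisfy `Loc`, the
restrictions of one class of `H¹(G_S', W)` for some finite `S'`. -/
def WeakOne {n : ℕ} (ρ : Gk k →* Module.End ℚ_[ℓ] (V ℓ n))
    (T : Set (HeightOneSpectrum (𝓞 k)))
    (Loc : HeightOneSpectrum (𝓞 k) → (Gk k → V ℓ n) → Prop) : Prop :=
  ∀ x : HeightOneSpectrum (𝓞 k) → Gk k → V ℓ n, (∀ v ∈ T, OneCocycle (Dec P v) ρ (x v)) →
    ∃ S' : Set (HeightOneSpectrum (𝓞 k)), S'.Finite ∧ ∃ c, OneCocycle ⊤ ρ c ∧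
      UnramCoc P S' c ∧ ∀ v ∈ T, Loc v (fun g => c g - x v g)

variable (ℓ)

/-- Local Tate duality in degree two at the places prime to `ℓ`: a class of `H²(k_v, W)` vanishes
when its images under all equivariant maps `W → ℚ_ℓ(1)` vanish. -/
def TateDuality : Prop :=
  ∀ v : HeightOneSpectrum (𝓞 k), (ℓ : 𝓞 k) ∉ v.asIdeal →
    ∀ (n : ℕ) (ρ : Gk k →* Module.End ℚ_[ℓ] (V ℓ n)), Cont ρ →
      ∀ z : Gk k → Gk k → V ℓ n, TwoCocycle (Dec P v) ρ z →
        (∀ f : V ℓ n →ₗ[ℚ_[ℓ]] ℚ_[ℓ], (∀ g ∈ Dec P v, ∀ x, f (ρ g x) = chi ℓ k g * f x) →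
          ∃ y : Gk k → ℚ_[ℓ], ContinuousOn y (Dec P v) ∧ ∀ g ∈ Dec P v, ∀ h ∈ Dec P v,
            f (z g h) = chi ℓ k g * y h - y (g * h) + y g) →
        ∃ y, Bounds (Dec P v) ρ y z

/-- Local duality and the Euler characteristic formula in degree one at the places prime to `ℓ`:
if `E` has no invariants under the decomposition group, then `H¹(k_v, Hom(E, ℚ_ℓ(1)))` consists of
unramified classes. -/
def TateInertia : Prop :=
  ∀ v : HeightOneSpectrum (𝓞 k), (ℓ : 𝓞 k) ∉ v.asIdeal →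
    ∀ (n : ℕ) (ρ : Gk k →* Module.End ℚ_[ℓ] (V ℓ n)), Cont ρ →
      (∀ x, (∀ g ∈ Dec P v, ρ g x = x) → x = 0) →
      ∀ c : Gk k → (V ℓ n →ₗ[ℚ_[ℓ]] ℚ_[ℓ]), (∀ x, ContinuousOn (fun g => c g x) (Dec P v)) →
        (∀ g ∈ Dec P v, ∀ h ∈ Dec P v, c (g * h) = c g + chi ℓ k g • (c h ∘ₗ ρ g⁻¹)) →
        ∃ u : V ℓ n →ₗ[ℚ_[ℓ]] ℚ_[ℓ], ∀ g ∈ Ine P v, c g = chi ℓ k g • (u ∘ₗ ρ g⁻¹) - u

end Duality

end Pool.Agent.W522.E
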