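import Pool.Agent.W522.E.Defs

/-!
# Local theory: extending equivariant maps to the first twist
-/

set_option autoImplicit false

namespace Pool.Agent.W522.E

open NumberField IsDedekindDomain Polynomial

section Poly

variable {K : Type} [Field K] {E : Type} [AddCommGroup E] [Module K E] [FiniteDimensional K E]

lemma pow_semisimple (A : Module.End K E) (c : K)
    (h : ∀ x, (A - algebraMap K _ c) ((A - algebraMap K _ c) x) = 0 →
      (A - algebraMap K _ c) x = 0) (a : ℕ) :
    ∀ y, ((A - algebraMap K _ c) ^ a) y = 0 → (A - algebraMap K _ c) y = 0 := by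
  induction a with
  | zero => intro y hy; simp at hy; simp [hy]
  | succ a ih =>
    intro y hy
    rw [pow_succ, Module.End.mul_apply] at hy
    exact h y (ih _ hy)

/-- A polynomial in `A` which is the projector to the eigenspace of `c`. -/
lemma exists_poly (A : Module.End K E) (c : K)
    (h : ∀ x, (A - algebraMap K _ c) ((A - algebraMap K _ c) x) = 0 →
      (A - algebraMap K _ c) x = 0) :
    ∃ q : K[X], q.eval c = 1 ∧ ∀ x, (A - algebraMap K _ c) (aeval A q x) = 0 := by
  classical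
  obtain ⟨q1, hq1, hnd⟩ := Polynomial.exists_eq_pow_rootMultiplicity_mul_and_not_dvd
    A.charpoly A.charpoly_monic.ne_zero c
  have hc : q1.eval c ≠ 0 := by
    intro h0
    exact hnd (Polynomial.dvd_iff_isRoot.2 h0)
  have h0 : (A - algebraMap K _ c) ^ (A.charpoly.rootMultiplicity c) * aeval A q1 = 0 := by
    have h1 := LinearMap.aeval_self_charpoly A
    rw [hq1] at h1
    simpa using h1
  refine ⟨C (q1.eval c)⁻¹ * q1, ?_, ?_⟩
  · simp [hc]
  · intro x
    have h2 : (A - algebraMap K _ c) (aeval A q1 x) = 0 :=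
      pow_semisimple A c h _ _ (by
        rw [← Module.End.mul_apply, h0]; rfl)
    rw [map_mul, aeval_C, Module.End.mul_apply, Module.algebraMap_end_apply, map_smul, h2,
      smul_zero]

end Poly

section Chi

variable {ℓ : ℕ} [Fact ℓ.Prime] {k : Type} [Field k]

lemma chi_ne_zero (g : Gk k) : chi ℓ k g ≠ 0 := by
  intro h
  have h1 : chi ℓ k g * chi ℓ k g⁻¹ = 1 := by rw [← map_mul, mul_inv_cancel, map_one]
  rw [h, zero_mul] at h1
  exact zero_ne_one h1

lemma continuous_chi : Continuous (chi ℓ k) := by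
  have h := cyclotomicCharacter.continuous ℓ k (AlgebraicClosure k)
  have h2 : Continuous fun g : Gk k => (((cyclotomicCharacter (AlgebraicClosure k) ℓ).comp
      (MulSemiringAction.toRingAut (Gk k) (AlgebraicClosure k)) g : ℤ_[ℓ]ˣ) : ℤ_[ℓ]) :=
    Units.continuous_val.comp h
  exact (continuous_subtype_val).comp h2

end Chi

section Local

variable {ℓ : ℕ} [Fact ℓ.Prime] {k : Type} [Field k] [NumberField k] (P : Choice k)

lemma conj_mem {v : HeightOneSpectrum (𝓞 k)} {φ g : Gk k} (hφ : φ ∈ Dec P v)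
    (hg : g ∈ Ine P v) : φ * g * φ⁻¹ ∈ Ine P v := by
  refine ⟨mul_mem (mul_mem hφ hg.1) (inv_mem hφ), ?_⟩
  intro x hx
  have hx' : IsIntegral ℤ (φ⁻¹ x) := by
    have := hx.map ((φ⁻¹ : Gk k).toAlgHom.restrictScalars ℤ)
    simpa using this
  have h := hg.2 (φ⁻¹ x) hx'
  have h2 := (hφ (g (φ⁻¹ x) - φ⁻¹ x)).2 h
  have h3 : φ (φ⁻¹ x) = x := by
    have := congrArg (fun f : Gk k => f x) (mul_inv_cancel φ)
    simpa using this
  rw [map_sub, h3] at h2
  exact h2

lemma pow_conj_mem {v : HeightOneSpectrum (𝓞 k)} {φ g : Gk k} (hφ : φ ∈ Dec P v)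
    (hg : g ∈ Ine P v) (n : ℕ) : φ ^ n * g * (φ ^ n)⁻¹ ∈ Ine P v :=
  conj_mem P (pow_mem hφ n) hg

variable {n m r : ℕ}

lemma aeval_equivariant {v : HeightOneSpectrum (𝓞 k)} {φ g : Gk k}
    {ρ : Gk k →* Module.End ℚ_[ℓ] (V ℓ m)} (r0 : V ℓ m →ₗ[ℚ_[ℓ]] ℚ_[ℓ])
    (h0 : ∀ g ∈ Ine P v, ∀ b, r0 (ρ g b) = chi ℓ k g * r0 b)
    (hφ : φ ∈ Dec P v) (hg : g ∈ Ine P v) (q : ℚ_[ℓ][X]) (b : V ℓ m) :
    r0 (aeval (ρ φ) q (ρ g b)) = chi ℓ k g * r0 (aeval (ρ φ) q b) := by
  induction q using Polynomial.induction_on' with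
  | add p q hp hq => simp only [map_add, LinearMap.add_apply, hp, hq]; ring
  | monomial j a =>
    have h1 : ∀ x, aeval (ρ φ) (Polynomial.monomial j a) x = a • (ρ (φ ^ j)) x := by
      intro x
      rw [Polynomial.aeval_monomial, Module.End.mul_apply, Module.algebraMap_end_apply, map_pow]
    have h2 : ρ (φ ^ j) (ρ g b) = ρ (φ ^ j * g * (φ ^ j)⁻¹) (ρ (φ ^ j) b) := by
      rw [← Module.End.mul_apply, ← Module.End.mul_apply, ← map_mul, ← map_mul]
      congr 2
      group
    rw [h1, h1, h2, map_smul, map_smul, h0 _ (pow_conj_mem P hφ hg j)]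
    have h3 : chi ℓ k (φ ^ j * g * (φ ^ j)⁻¹) = chi ℓ k g := by
      rw [map_mul, map_mul, mul_right_comm, ← map_mul, mul_inv_cancel, map_one, one_mul]
    rw [h3]
    simp only [smul_eq_mul]
    ring

lemma aeval_restrict {ρW : Gk k →* Module.End ℚ_[ℓ] (V ℓ n)}
    {ρB : Gk k →* Module.End ℚ_[ℓ] (V ℓ m)} (i : V ℓ n →ₗ[ℚ_[ℓ]] V ℓ m)
    (hi : ∀ g w, i (ρW g w) = ρB g (i w)) (f : V ℓ n →ₗ[ℚ_[ℓ]] ℚ_[ℓ])
    (r0 : V ℓ m →ₗ[ℚ_[ℓ]] ℚ_[ℓ]) (hr : ∀ w, r0 (i w) = f w) {φ : Gk k} {c : ℚ_[ℓ]}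
    (hf : ∀ w, f (ρW φ w) = c * f w) (q : ℚ_[ℓ][X]) (w : V ℓ n) :
    r0 (aeval (ρB φ) q (i w)) = q.eval c * f w := by
  induction q using Polynomial.induction_on' with
  | add p q hp hq => simp only [map_add, LinearMap.add_apply, hp, hq, eval_add]; ring
  | monomial j a =>
    have h1 : aeval (ρB φ) (Polynomial.monomial j a) (i w) = a • i (((ρW φ) ^ j) w) := by
      rw [Polynomial.aeval_monomial, Module.End.mul_apply, Module.algebraMap_end_apply]
      congr 1
      induction j with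
      | zero => simp
      | succ j ih => rw [pow_succ', pow_succ', Module.End.mul_apply, Module.End.mul_apply, ih, hi]
    have h2 : f (((ρW φ) ^ j) w) = c ^ j * f w := by
      induction j with
      | zero => simp
      | succ j ih => 
        rw [pow_succ', Module.End.mul_apply, hf]
        have ih' := ih (by
          rw [Polynomial.aeval_monomial, Module.End.mul_apply, Module.algebraMap_end_apply]
          congr 1
          clear ih h1
          induction j with
          | zero => simp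
          | succ j ih => rw [pow_succ', pow_succ', Module.End.mul_apply, Module.End.mul_apply, ih, hi])
        rw [ih']
        ring
    rw [h1, map_smul, hr, h2, eval_monomial, smul_eq_mul]
    ring

end Local

end Pool.Agent.W522.E
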