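import Pool.Agent.W522.E.E1

/-!
# Lifting classes of `H¹` along surjections of representations
-/

set_option autoImplicit false
set_option linter.unusedSectionVars false

namespace Pool.Agent.W522.E

open NumberField IsDedekindDomain Polynomial

variable {ℓ : ℕ} [Fact ℓ.Prime] {k : Type} [Field k] [NumberField k]

/-- A short exact sequence `0 → W → B → E → 0` of representations on `ℚ_ℓ^n`, `ℚ_ℓ^m`,
`ℚ_ℓ^r`. -/
structure Exact3 {n m r : ℕ} (ρW : Gk k →* Module.End ℚ_[ℓ] (V ℓ n))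
    (ρB : Gk k →* Module.End ℚ_[ℓ] (V ℓ m)) (ρE : Gk k →* Module.End ℚ_[ℓ] (V ℓ r))
    (i : V ℓ n →ₗ[ℚ_[ℓ]] V ℓ m) (π : V ℓ m →ₗ[ℚ_[ℓ]] V ℓ r) : Prop where
  inj : Function.Injective i
  surj : Function.Surjective π
  exact : ∀ x, π x = 0 ↔ ∃ w, i w = x
  equivI : ∀ g w, i (ρW g w) = ρB g (i w)
  equivP : ∀ g b, π (ρB g b) = ρE g (π b)

section

variable {n m r : ℕ} {ρW : Gk k →* Module.End ℚ_[ℓ] (V ℓ n)}
  {ρB : Gk k →* Module.End ℚ_[ℓ] (V ℓ m)} {ρE : Gk k →* Module.End ℚ_[ℓ] (V ℓ r)}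
  {i : V ℓ n →ₗ[ℚ_[ℓ]] V ℓ m} {π : V ℓ m →ₗ[ℚ_[ℓ]] V ℓ r}

lemma clin {a b : ℕ} (f : V ℓ a →ₗ[ℚ_[ℓ]] V ℓ b) : Continuous f :=
  LinearMap.continuous_of_finiteDimensional f

lemma clin1 {a : ℕ} (f : V ℓ a →ₗ[ℚ_[ℓ]] ℚ_[ℓ]) : Continuous f :=
  LinearMap.continuous_of_finiteDimensional f

lemma ip_eq (h : Exact3 ρW ρB ρE i π) {p : V ℓ m →ₗ[ℚ_[ℓ]] V ℓ n} (hp : ∀ w, p (i w) = w)
    {x : V ℓ m} (hx : π x = 0) : i (p x) = x := by
  obtain ⟨w, rfl⟩ := (h.exact x).1 hx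
  rw [hp]

lemma pi_i (h : Exact3 ρW ρB ρE i π) (w : V ℓ n) : π (i w) = 0 := (h.exact _).2 ⟨w, rfl⟩

lemma act_inv {a : ℕ} (ρ : Gk k →* Module.End ℚ_[ℓ] (V ℓ a)) (g : Gk k) (x : V ℓ a) :
    ρ g (ρ g⁻¹ x) = x := by
  rw [← Module.End.mul_apply, ← map_mul, mul_inv_cancel, map_one]; rfl

lemma inv_act {a : ℕ} (ρ : Gk k →* Module.End ℚ_[ℓ] (V ℓ a)) (g : Gk k) (x : V ℓ a) :
    ρ g⁻¹ (ρ g x) = x := by
  rw [← Module.End.mul_apply, ← map_mul, inv_mul_cancel, map_one]; rfl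

lemma chi_inv_mul (g : Gk k) : chi ℓ k g⁻¹ * chi ℓ k g = 1 := by
  rw [← map_mul, inv_mul_cancel, map_one]

lemma chi_mul_inv (g : Gk k) : chi ℓ k g * chi ℓ k g⁻¹ = 1 := by
  rw [← map_mul, mul_inv_cancel, map_one]

lemma cont_at {a : ℕ} {ρ : Gk k →* Module.End ℚ_[ℓ] (V ℓ a)} (hc : Cont ρ) (x : V ℓ a) :
    Continuous fun g => ρ g x :=
  hc.comp (continuous_id.prodMk continuous_const)

variable (P : Choice k)

/-- A closed condition stable under products and inverses which holds on inertia and at a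
Frobenius element holds on the decomposition group. -/
lemma dec_induction (hF : FrobeniusGenerates P) {v : HeightOneSpectrum (𝓞 k)}
    (H : Subgroup (Gk k)) (hcl : IsClosed (H : Set (Gk k))) {φ : Gk k} (hφ : IsFrob P v φ)
    (h1 : φ ∈ H) (h2 : ∀ g ∈ Ine P v, g ∈ H) : ∀ g ∈ Dec P v, g ∈ H := by
  intro g hg
  have h3 : Subgroup.closure (insert φ (Ine P v)) ≤ H := by
    rw [Subgroup.closure_le]
    intro x hx
    rcases hx with rfl | hx
    · exact h1
    · exact h2 x hx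
  exact Subgroup.topologicalClosure_minimal _ h3 hcl ((hF v).2 φ hφ hg)

/-- The subgroup of elements for which a linear form is equivariant. -/
noncomputable def equivSub (ρ : Gk k →* Module.End ℚ_[ℓ] (V ℓ m))
    (f : V ℓ m →ₗ[ℚ_[ℓ]] ℚ_[ℓ]) : Subgroup (Gk k) where
  carrier := {g | ∀ b, f (ρ g b) = chi ℓ k g * f b}
  one_mem' := by intro b; simp
  mul_mem' := by
    intro g h hg hh b
    rw [map_mul, Module.End.mul_apply, hg, hh, map_mul, mul_assoc]
  inv_mem' := by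
    intro g hg b
    have h := hg (ρ g⁻¹ b)
    rw [act_inv] at h
    rw [h, ← mul_assoc, chi_inv_mul, one_mul]

lemma equivSub_closed {ρ : Gk k →* Module.End ℚ_[ℓ] (V ℓ m)} (hc : Cont ρ)
    (f : V ℓ m →ₗ[ℚ_[ℓ]] ℚ_[ℓ]) : IsClosed (equivSub ρ f : Set (Gk k)) := by
  have : (equivSub ρ f : Set (Gk k)) = ⋂ b, {g | f (ρ g b) = chi ℓ k g * f b} := by
    ext g
    simp only [Set.mem_iInter]
    exact Iff.rfl
  rw [this]
  refine isClosed_iInter fun b => isClosed_eq ?_ ?_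
  · exact (clin1 f).comp (cont_at hc b)
  · exact continuous_chi.mul continuous_const

/-- Local extension of equivariant maps to the first twist. -/
lemma exists_equivariant (hF : FrobeniusGenerates P) (hTI : TateInertia ℓ P)
    (h : Exact3 ρW ρB ρE i π) (hBc : Cont ρB) (hEc : Cont ρE)
    {v : HeightOneSpectrum (𝓞 k)} (hv : (ℓ : 𝓞 k) ∉ v.asIdeal)
    (hinv : ∀ x, (∀ g ∈ Dec P v, ρE g x = x) → x = 0)
    (hss : ∀ φ, IsFrob P v φ → SemisimpleAt (ρB φ) (chi ℓ k φ))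
    (f : V ℓ n →ₗ[ℚ_[ℓ]] ℚ_[ℓ]) (hf : ∀ g ∈ Dec P v, ∀ x, f (ρW g x) = chi ℓ k g * f x) :
    ∃ t : V ℓ m →ₗ[ℚ_[ℓ]] ℚ_[ℓ], (∀ w, t (i w) = f w) ∧
      ∀ g ∈ Dec P v, ∀ b, t (ρB g b) = chi ℓ k g * t b := by
  obtain ⟨s, hs⟩ := π.exists_rightInverse_of_surjective (LinearMap.range_eq_top.2 h.surj)
  obtain ⟨p, hp⟩ := i.exists_leftInverse_of_injective (LinearMap.ker_eq_bot.2 h.inj)
  have hs' : ∀ e, π (s e) = e := fun e => LinearMap.congr_fun hs e
  have hp' : ∀ w, p (i w) = w := fun w => LinearMap.congr_fun hp w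
  set r1 : V ℓ m →ₗ[ℚ_[ℓ]] ℚ_[ℓ] := f ∘ₗ p with hr1
  have hr1i : ∀ w, r1 (i w) = f w := fun w => by simp [hr1, hp']
  let c : Gk k → (V ℓ r →ₗ[ℚ_[ℓ]] ℚ_[ℓ]) := fun g =>
    (chi ℓ k g • (r1 ∘ₗ ρB g⁻¹) - r1) ∘ₗ s
  have hc0 : ∀ g e, c g e = chi ℓ k g * r1 (ρB g⁻¹ (s e)) - r1 (s e) := fun g e => rfl
  have hc : ∀ g ∈ Dec P v, ∀ b, c g (π b) = chi ℓ k g * r1 (ρB g⁻¹ b) - r1 b := by
    intro g hg b
    have hk : π (s (π b) - b) = 0 := by rw [map_sub, hs', sub_self]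
    obtain ⟨w, hw⟩ := (h.exact _).1 hk
    have hsb : s (π b) = b + i w := by rw [hw]; abel
    rw [hc0, hsb, map_add, map_add, map_add, ← h.equivI, hr1i, hr1i, hf _ (inv_mem hg),
      mul_add, ← mul_assoc, chi_mul_inv]
    ring
  have hcoc : ∀ g ∈ Dec P v, ∀ h ∈ Dec P v, c (g * h) = c g + chi ℓ k g • (c h ∘ₗ ρE g⁻¹) := by
    intro g hg j hj
    refine LinearMap.ext fun e => ?_
    obtain ⟨b, rfl⟩ := h.surj e
    change c (g * j) (π b) = c g (π b) + chi ℓ k g * c j (ρE g⁻¹ (π b))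
    rw [← h.equivP, hc _ (mul_mem hg hj), hc _ hg, hc _ hj, mul_inv_rev]
    simp only [map_mul, Module.End.mul_apply]
    ring
  have hcont : ∀ x, ContinuousOn (fun g => c g x) (Dec P v) := by
    intro x
    refine Continuous.continuousOn ?_
    simp only [hc0]
    exact (continuous_chi.mul ((clin1 r1).comp ((cont_at hBc (s x)).comp continuous_inv))).sub
      continuous_const
  obtain ⟨u, hu⟩ := hTI v hv r ρE hEc hinv c hcont hcoc
  set r0 : V ℓ m →ₗ[ℚ_[ℓ]] ℚ_[ℓ] := r1 - u ∘ₗ π with hr0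
  have hr0i : ∀ w, r0 (i w) = f w := fun w => by
    change r1 (i w) - u (π (i w)) = f w
    rw [pi_i h, map_zero, sub_zero, hr1i]
  have hr0I : ∀ g ∈ Ine P v, ∀ b, r0 (ρB g b) = chi ℓ k g * r0 b := by
    intro g hg b
    have h1 := hc g hg.1 (ρB g b)
    have h2 : c g (π (ρB g b)) = chi ℓ k g * u (ρE g⁻¹ (π (ρB g b))) - u (π (ρB g b)) :=
      LinearMap.congr_fun (hu g hg) (π (ρB g b))
    rw [inv_act] at h1
    rw [h1, ← h.equivP, inv_act] at h2
    change r1 (ρB g b) - u (π (ρB g b)) = chi ℓ k g * (r1 b - u (π b))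
    linear_combination -h2
  obtain ⟨φ, hφ⟩ := (hF v).1
  obtain ⟨q, hq1, hq⟩ := exists_poly (ρB φ) (chi ℓ k φ) (hss φ hφ)
  refine ⟨r0 ∘ₗ aeval (ρB φ) q, ?_, ?_⟩
  · intro w
    rw [LinearMap.comp_apply, aeval_restrict i h.equivI f r0 hr0i (hf φ hφ.1) q w, hq1, one_mul]
  · refine dec_induction P hF (equivSub ρB (r0 ∘ₗ aeval (ρB φ) q)) (equivSub_closed hBc _) hφ ?_ ?_
    · intro b
      have h1 : aeval (ρB φ) q (ρB φ b) = ρB φ (aeval (ρB φ) q b) := by
        rw [← Module.End.mul_apply, ← Module.End.mul_apply]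
        have : aeval (ρB φ) q * ρB φ = ρB φ * aeval (ρB φ) q := by
          have h2 := Polynomial.aeval_mul (p := q) (q := X) (x := ρB φ)
          have h3 := Polynomial.aeval_mul (p := X) (q := q) (x := ρB φ)
          rw [aeval_X] at h2 h3
          rw [← h2, ← h3, mul_comm]
        rw [this]
      have h4 := hq b
      rw [LinearMap.sub_apply, Module.algebraMap_end_apply, sub_eq_zero] at h4
      simp only [LinearMap.comp_apply]
      rw [h1, h4, map_smul, smul_eq_mul]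
    · intro g hg b
      simp only [LinearMap.comp_apply]
      exact aeval_equivariant P r0 hr0I hφ.1 hg q b

/-- The elements where a cocycle agrees with a coboundary. -/
noncomputable def agreeSub {ρ : Gk k →* Module.End ℚ_[ℓ] (V ℓ r)} {a : Gk k → V ℓ r}
    (ha : OneCocycle ⊤ ρ a) (e : V ℓ r) : Subgroup (Gk k) where
  carrier := {g | a g = ρ g e - e}
  one_mem' := by
    have h := ha.2 1 trivial 1 trivial
    rw [mul_one, map_one] at h
    have h1 : a 1 = 0 := by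
      have : a 1 = a 1 + a 1 := h
      simpa using this
    change a 1 = ρ 1 e - e
    rw [h1, map_one]
    simp
  mul_mem' := by
    intro g h hg hh
    change a g = _ at hg
    change a h = _ at hh
    change a (g * h) = _
    rw [ha.2 g trivial h trivial, hg, hh, map_sub, map_mul, Module.End.mul_apply]
    abel
  inv_mem' := by
    intro g hg
    change a g = _ at hg
    change a g⁻¹ = _
    have h := ha.2 g⁻¹ trivial g trivial
    have h0 := ha.2 1 trivial 1 trivial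
    rw [mul_one, map_one] at h0
    have h1 : a 1 = 0 := by
      have : a 1 = a 1 + a 1 := h0
      simpa using this
    rw [inv_mul_cancel, h1, hg, map_sub, inv_act] at h
    have h2 : a g⁻¹ = -(e - ρ g⁻¹ e) := by
      rw [eq_neg_iff_add_eq_zero]; exact h.symm
    rw [h2]; abel

lemma cocycle_one {ρ : Gk k →* Module.End ℚ_[ℓ] (V ℓ r)} {a : Gk k → V ℓ r}
    {D : Subgroup (Gk k)} (ha : OneCocycle D ρ a) : a 1 = 0 := by
  have h := ha.2 1 (one_mem D) 1 (one_mem D)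
  rw [mul_one, map_one] at h
  have : a 1 = a 1 + a 1 := h
  simpa using this

lemma agree_closed {ρ : Gk k →* Module.End ℚ_[ℓ] (V ℓ r)} (hc : Cont ρ) {a : Gk k → V ℓ r}
    (ha : OneCocycle ⊤ ρ a) (e : V ℓ r) : IsClosed (agreeSub ha e : Set (Gk k)) := by
  have hac : Continuous a := by
    have := ha.1
    rwa [Subgroup.coe_top, continuousOn_univ] at this
  exact isClosed_eq hac ((cont_at hc e).sub continuous_const)

/-- Unramified classes of representations without local invariants vanish. -/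
lemma unram_trivial (hF : FrobeniusGenerates P) {ρ : Gk k →* Module.End ℚ_[ℓ] (V ℓ r)}
    (hc : Cont ρ) {v : HeightOneSpectrum (𝓞 k)}
    (hinv : ∀ x, (∀ g ∈ Dec P v, ρ g x = x) → x = 0) (hur : ∀ g ∈ Ine P v, ρ g = 1)
    {a : Gk k → V ℓ r} (ha : OneCocycle ⊤ ρ a) (hau : ∀ g ∈ Ine P v, a g = 0) :
    ∃ e, ∀ g ∈ Dec P v, a g = ρ g e - e := by
  obtain ⟨φ, hφ⟩ := (hF v).1
  have h0 : OneCocycle ⊤ ρ (fun _ => (0 : V ℓ r)) :=
    ⟨continuousOn_const, fun g _ h _ => by simp⟩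
  have hinj : Function.Injective (ρ φ - 1 : Module.End ℚ_[ℓ] (V ℓ r)) := by
    rw [← LinearMap.ker_eq_bot, LinearMap.ker_eq_bot']
    intro x hx
    have hx' : ρ φ x = x := by
      rw [LinearMap.sub_apply] at hx
      exact sub_eq_zero.1 hx
    apply hinv
    have := dec_induction P hF (agreeSub h0 x) (agree_closed hc h0 x) hφ
      (by change (0 : V ℓ r) = _; rw [hx', sub_self])
      (by intro g hg; change (0 : V ℓ r) = _; rw [hur g hg]; simp)
    intro g hg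
    have h1 : (0 : V ℓ r) = ρ g x - x := this g hg
    exact (sub_eq_zero.1 h1.symm)
  have hsurj := LinearMap.surjective_of_injective hinj
  obtain ⟨e, he⟩ := hsurj (a φ)
  refine ⟨e, dec_induction P hF (agreeSub ha e) (agree_closed hc ha e) hφ ?_ ?_⟩
  · change a φ = ρ φ e - e
    rw [← he]; rfl
  · intro g hg
    change a g = ρ g e - e
    rw [hau g hg, hur g hg]
    simp

end

end Pool.Agent.W522.E
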