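import Pool.Agent.W522.E.E2

/-!
# The local-global principle for lifting classes of `H¹`
-/

set_option autoImplicit false
set_option linter.unusedSectionVars false

namespace Pool.Agent.W522.E

open NumberField IsDedekindDomain Polynomial

variable {ℓ : ℕ} [Fact ℓ.Prime] {k : Type} [Field k] [NumberField k]

variable {n m r : ℕ} {ρW : Gk k →* Module.End ℚ_[ℓ] (V ℓ n)}
  {ρB : Gk k →* Module.End ℚ_[ℓ] (V ℓ m)} {ρE : Gk k →* Module.End ℚ_[ℓ] (V ℓ r)}
  {i : V ℓ n →ₗ[ℚ_[ℓ]] V ℓ m} {π : V ℓ m →ₗ[ℚ_[ℓ]] V ℓ r}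

lemma cont_of_top {a : ℕ} {ρ : Gk k →* Module.End ℚ_[ℓ] (V ℓ a)} {c : Gk k → V ℓ a}
    (h : OneCocycle ⊤ ρ c) : Continuous c := by
  have := h.1
  rwa [Subgroup.coe_top, continuousOn_univ] at this

/-- The obstruction cocycle. -/
noncomputable def obs (ρB : Gk k →* Module.End ℚ_[ℓ] (V ℓ m)) (p : V ℓ m →ₗ[ℚ_[ℓ]] V ℓ n)
    (s : V ℓ r →ₗ[ℚ_[ℓ]] V ℓ m) (a : Gk k → V ℓ r) (g h : Gk k) : V ℓ n :=
  p (s (a g) + ρB g (s (a h)) - s (a (g * h)))

section

variable (h : Exact3 ρW ρB ρE i π) {p : V ℓ m →ₗ[ℚ_[ℓ]] V ℓ n} {s : V ℓ r →ₗ[ℚ_[ℓ]] V ℓ m}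
  (hp : ∀ w, p (i w) = w) (hs : ∀ e, π (s e) = e)
  {a : Gk k → V ℓ r} (ha : OneCocycle ⊤ ρE a)

include h hp hs ha in
lemma i_obs (g j : Gk k) :
    i (obs ρB p s a g j) = s (a g) + ρB g (s (a j)) - s (a (g * j)) := by
  refine ip_eq h hp ?_
  rw [map_sub, map_add, h.equivP, hs, hs, hs, ha.2 g trivial j trivial]
  abel

include h hp hs ha in
lemma obs_twoCocycle (hBc : Cont ρB) (D : Subgroup (Gk k)) :
    TwoCocycle D ρW (obs ρB p s a) := by
  constructor
  · refine Continuous.continuousOn ?_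
    have hac := cont_of_top ha
    have h1 : Continuous fun q : Gk k × Gk k => s (a q.1) :=
      (clin s).comp (hac.comp continuous_fst)
    have h2 : Continuous fun q : Gk k × Gk k => ρB q.1 (s (a q.2)) :=
      hBc.comp (continuous_fst.prodMk ((clin s).comp (hac.comp continuous_snd)))
    have h3 : Continuous fun q : Gk k × Gk k => s (a (q.1 * q.2)) :=
      (clin s).comp (hac.comp (continuous_fst.mul continuous_snd))
    exact (clin p).comp ((h1.add h2).sub h3)
  · intro g _ j _ l _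
    apply h.inj
    rw [map_sub, map_add, map_sub, h.equivI, i_obs h hp hs ha, i_obs h hp hs ha,
      i_obs h hp hs ha, i_obs h hp hs ha, map_zero, map_sub, map_add, ← Module.End.mul_apply,
      ← map_mul, mul_assoc]
    abel

include h hp hs ha in
/-- A local lift bounds the obstruction. -/
lemma bounds_of_lift {D : Subgroup (Gk k)} {β : Gk k → V ℓ m} (hβ : OneCocycle D ρB β)
    (hβa : ∀ g ∈ D, π (β g) = a g) :
    Bounds D ρW (fun g => p (s (a g) - β g)) (obs ρB p s a) := by
  have hi : ∀ g ∈ D, i (p (s (a g) - β g)) = s (a g) - β g := by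
    intro g hg
    refine ip_eq h hp ?_
    rw [map_sub, hs, hβa g hg, sub_self]
  constructor
  · exact (clin p).comp_continuousOn
      (((clin s).comp (cont_of_top ha)).continuousOn.sub hβ.1)
  · intro g hg j hj
    apply h.inj
    rw [i_obs h hp hs ha, map_add, map_sub, h.equivI, hi _ hg, hi _ hj, hi _ (mul_mem hg hj),
      hβ.2 g hg j hj, map_sub]
    abel

end

/-- **Local-global principle.** -/
theorem lifting (P : Choice k) (hF : FrobeniusGenerates P) (hTD : TateDuality ℓ P)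
    (hTI : TateInertia ℓ P) (h : Exact3 ρW ρB ρE i π) (hWc : Cont ρW) (hBc : Cont ρB)
    (hEc : Cont ρE) (h2 : HasseTwo P ρW)
    (S T : Set (HeightOneSpectrum (𝓞 k))) (hS : S.Finite)
    (Loc : HeightOneSpectrum (𝓞 k) → (Gk k → V ℓ n) → Prop) (h1 : WeakOne P ρW T Loc)
    (hur : UnramRep P S ρB)
    (hℓ : ∀ v : HeightOneSpectrum (𝓞 k), (ℓ : 𝓞 k) ∈ v.asIdeal → v ∈ T)
    (hinv : ∀ v, v ∉ S → v ∉ T → ∀ x, (∀ g ∈ Dec P v, ρE g x = x) → x = 0)
    (hloc : ∀ v ∈ S, v ∉ T →
      (∀ f : V ℓ n →ₗ[ℚ_[ℓ]] ℚ_[ℓ],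
        (∀ g ∈ Dec P v, ∀ x, f (ρW g x) = chi ℓ k g * f x) → f = 0) ∨
      ((∀ x, (∀ g ∈ Dec P v, ρE g x = x) → x = 0) ∧
        ∀ φ, IsFrob P v φ → SemisimpleAt (ρB φ) (chi ℓ k φ)))
    (a : Gk k → V ℓ r) (ha : OneCocycle ⊤ ρE a) (hau : UnramCoc P S a)
    (b : HeightOneSpectrum (𝓞 k) → Gk k → V ℓ m)
    (hb : ∀ v ∈ T, OneCocycle (Dec P v) ρB (b v) ∧ ∀ g ∈ Dec P v, π (b v g) = a g) :
    ∃ S' : Set (HeightOneSpectrum (𝓞 k)), S'.Finite ∧ ∃ A, OneCocycle ⊤ ρB A ∧
      UnramCoc P S' A ∧ (∀ g, π (A g) = a g) ∧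
      ∀ v ∈ T, ∃ y, Loc v y ∧ ∀ g ∈ Dec P v, A g = b v g - i (y g) := by
  obtain ⟨s, hs0⟩ := π.exists_rightInverse_of_surjective (LinearMap.range_eq_top.2 h.surj)
  obtain ⟨p, hp0⟩ := i.exists_leftInverse_of_injective (LinearMap.ker_eq_bot.2 h.inj)
  have hs : ∀ e, π (s e) = e := fun e => LinearMap.congr_fun hs0 e
  have hp : ∀ w, p (i w) = w := fun w => LinearMap.congr_fun hp0 w
  -- the representations `W` and `E` are unramified outside `S`
  have hurW : UnramRep P S ρW := by
    intro v hv g hg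
    refine LinearMap.ext fun w => h.inj ?_
    rw [h.equivI, hur v hv g hg]; rfl
  have hurE : UnramRep P S ρE := by
    intro v hv g hg
    refine LinearMap.ext fun e => ?_
    obtain ⟨x, rfl⟩ := h.surj e
    rw [← h.equivP, hur v hv g hg]; rfl
  -- the obstruction is inflated from `G_S`
  have hN : ∀ c ∈ NS P S, ρB c = 1 ∧ a c = 0 := by
    let N : Subgroup (Gk k) :=
      { carrier := {c | ρB c = 1 ∧ a c = 0}
        one_mem' := ⟨map_one _, cocycle_one ha⟩
        mul_mem' := by
          rintro x y ⟨hx1, hx2⟩ ⟨hy1, hy2⟩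
          refine ⟨by rw [map_mul, hx1, hy1, one_mul], ?_⟩
          rw [ha.2 x trivial y trivial, hx2, hy2, map_zero, add_zero]
        inv_mem' := by
          rintro x ⟨hx1, hx2⟩
          have e1 : ρB x⁻¹ = 1 := by
            have := map_mul ρB x⁻¹ x
            rw [inv_mul_cancel, map_one, hx1, mul_one] at this
            exact this.symm
          refine ⟨e1, ?_⟩
          have := ha.2 x⁻¹ trivial x trivial
          rw [inv_mul_cancel, cocycle_one ha, hx2, map_zero, add_zero] at this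
          exact this.symm }
    have hρE : ∀ c, ρB c = 1 → ρE c = 1 := by
      intro c hc
      refine LinearMap.ext fun e => ?_
      obtain ⟨x, rfl⟩ := h.surj e
      rw [← h.equivP, hc]; rfl
    have hnormal : N.Normal := by
      constructor
      rintro x ⟨hx1, hx2⟩ g
      refine ⟨by rw [map_mul, map_mul, hx1, mul_one, ← map_mul, mul_inv_cancel, map_one], ?_⟩
      rw [ha.2 (g * x) trivial g⁻¹ trivial, ha.2 g trivial x trivial, hx2, map_zero, add_zero,
        map_mul, hρE x hx1, mul_one, ← ha.2 g trivial g⁻¹ trivial, mul_inv_cancel,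
        cocycle_one ha]
    have hclosed : IsClosed (N : Set (Gk k)) := by
      have e1 : (N : Set (Gk k)) = (⋂ x, {c | ρB c x = x}) ∩ {c | a c = 0} := by
        ext c
        constructor
        · rintro ⟨hc1, hc2⟩
          refine ⟨Set.mem_iInter.2 fun x => ?_, hc2⟩
          change ρB c x = x
          rw [hc1]; rfl
        · rintro ⟨hc1, hc2⟩
          refine ⟨LinearMap.ext fun x => ?_, hc2⟩
          exact Set.mem_iInter.1 hc1 x
      rw [e1]
      exact (isClosed_iInter fun x => isClosed_eq (cont_at hBc x) continuous_const).inter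
        (isClosed_eq (cont_of_top ha) continuous_const)
    have hle : NS P S ≤ N := by
      refine Subgroup.topologicalClosure_minimal _ ?_ hclosed
      refine Subgroup.normalClosure_le_normal ?_
      intro g hg
      simp only [Set.mem_iUnion] at hg
      obtain ⟨v, hv, hg⟩ := hg
      exact ⟨hur v hv g hg, hau v hv g hg⟩
    exact fun c hc => hle hc
  have hinfl : ∀ x ∈ NS P S, ∀ y ∈ NS P S, ∀ g j,
      obs ρB p s a (g * x) (j * y) = obs ρB p s a g j := by
    intro x hx y hy g j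
    have e1 : ∀ g, ∀ x ∈ NS P S, a (g * x) = a g := by
      intro g x hx
      rw [ha.2 g trivial x trivial, (hN x hx).2, map_zero, add_zero]
    have e2 : ρB (g * x) = ρB g := by rw [map_mul, (hN x hx).1, mul_one]
    have hnorm : (NS P S).Normal := by
      unfold NS
      exact Subgroup.is_normal_topologicalClosure _
    have e3 : a (g * x * (j * y)) = a (g * j) := by
      have : g * x * (j * y) = g * j * ((j⁻¹ * x * j⁻¹⁻¹) * y) := by group
      rw [this]
      exact e1 _ _ (mul_mem (hnorm.conj_mem x hx j⁻¹) hy)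
    unfold obs
    rw [e1 g x hx, e1 j y hy, e2, e3]
  -- the obstruction vanishes locally
  have hloc : ∀ v, ∃ y, Bounds (Dec P v) ρW y (obs ρB p s a) := by
    intro v
    by_cases hvT : v ∈ T
    · exact ⟨_, bounds_of_lift h hp hs ha (hb v hvT).1 (hb v hvT).2⟩
    by_cases hvS : v ∈ S
    · have hv : (ℓ : 𝓞 k) ∉ v.asIdeal := fun hc => hvT (hℓ v hc)
      refine hTD v hv n ρW hWc _ (obs_twoCocycle h hp hs ha hBc _) ?_
      intro f hf
      rcases hloc v hvS hvT with h0 | ⟨hi1, hi2⟩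
      · refine ⟨fun _ => 0, continuousOn_const, fun g _ j _ => ?_⟩
        rw [h0 f hf]
        simp
      obtain ⟨t, ht1, ht2⟩ := exists_equivariant P hF hTI h hBc hEc hv hi1 hi2 f hf
      refine ⟨fun g => t (s (a g)),
        ((clin1 t).comp ((clin s).comp (cont_of_top ha))).continuousOn, ?_⟩
      intro g hg j hj
      rw [← ht1, i_obs h hp hs ha, map_sub, map_add, ht2 g hg]
      ring
    · obtain ⟨e, he⟩ := unram_trivial P hF hEc (hinv v hvS hvT) (hurE v hvS) ha (hau v hvS)
      refine ⟨_, bounds_of_lift h hp hs ha (D := Dec P v) (β := fun g => ρB g (s e) - s e) ?_ ?_⟩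
      · refine ⟨((cont_at hBc (s e)).sub continuous_const).continuousOn, ?_⟩
        intro g _ j _
        change ρB (g * j) (s e) - s e = ρB g (s e) - s e + ρB g (ρB j (s e) - s e)
        rw [map_sub, map_mul, Module.End.mul_apply]
        abel
      · intro g hg
        rw [map_sub, h.equivP, hs, he g hg]
  -- global lift
  obtain ⟨S', hS', hSS', y, hy, hyN⟩ := h2 S hS hurW _ (obs_twoCocycle h hp hs ha hBc ⊤) hinfl hloc
  have hyc : Continuous y := by
    have := hy.1
    rwa [Subgroup.coe_top, continuousOn_univ] at this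
  obtain ⟨A0, hA0d⟩ : ∃ A0 : Gk k → V ℓ m, ∀ g, A0 g = s (a g) - i (y g) :=
    ⟨_, fun _ => rfl⟩
  have hA0 : OneCocycle ⊤ ρB A0 := by
    have hA0f : A0 = fun g => s (a g) - i (y g) := funext hA0d
    refine ⟨?_, ?_⟩
    · rw [hA0f]
      exact (((clin s).comp (cont_of_top ha)).sub ((clin i).comp hyc)).continuousOn
    intro g _ j _
    have e1 := congrArg i (hy.2 g trivial j trivial)
    rw [i_obs h hp hs ha, map_add, map_sub, h.equivI] at e1
    rw [hA0d, hA0d, hA0d, map_sub]
    linear_combination (exp := 1) -e1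
  have hA0a : ∀ g, π (A0 g) = a g := by
    intro g
    rw [hA0d, map_sub, hs, pi_i h, sub_zero]
  have hA0u : ∀ v, v ∉ S' → ∀ g ∈ Ine P v, A0 g = 0 := by
    intro v hv g hg
    have hgN : g ∈ NS P S' := by
      refine Subgroup.le_topologicalClosure _ (Subgroup.subset_normalClosure ?_)
      exact Set.mem_iUnion₂.2 ⟨v, hv, hg⟩
    have e1 : y g = y 1 := by
      have := hyN 1 g hgN
      rwa [one_mul] at this
    have e2 : A0 1 = 0 := cocycle_one hA0
    have e3 : a g = a 1 := by
      rw [hau v (fun hc => hv (hSS' hc)) g hg, cocycle_one ha]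
    rw [hA0d] at e2
    rw [hA0d, e1, e3]
    exact e2
  -- adjusting at the places of `T`
  obtain ⟨S'', hS'', c, hc, hcu, hcT⟩ := h1 (fun v g => p (A0 g - b v g)) (by
    intro v hv
    have hi : ∀ g ∈ Dec P v, i (p (A0 g - b v g)) = A0 g - b v g := by
      intro g hg
      refine ip_eq h hp ?_
      rw [map_sub, hA0a, (hb v hv).2 g hg, sub_self]
    refine ⟨(clin p).comp_continuousOn ((cont_of_top hA0).continuousOn.sub (hb v hv).1.1), ?_⟩
    intro g hg j hj
    apply h.inj
    change i (p (A0 (g * j) - b v (g * j))) = i (p (A0 g - b v g) + ρW g (p (A0 j - b v j)))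
    rw [map_add, h.equivI, hi _ hg, hi _ hj, hi _ (mul_mem hg hj), hA0.2 g trivial j trivial,
      (hb v hv).1.2 g hg j hj, map_sub]
    abel)
  refine ⟨S' ∪ S'', hS'.union hS'', fun g => A0 g - i (c g), ?_, ?_, ?_, ?_⟩
  · refine ⟨((cont_of_top hA0).sub ((clin i).comp (cont_of_top hc))).continuousOn, ?_⟩
    intro g _ j _
    change A0 (g * j) - i (c (g * j)) = A0 g - i (c g) + ρB g (A0 j - i (c j))
    rw [hA0.2 g trivial j trivial, hc.2 g trivial j trivial, map_add, map_sub, h.equivI]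
    abel
  · intro v hv g hg
    simp only [Set.mem_union, not_or] at hv
    change A0 g - i (c g) = 0
    rw [hA0u v hv.1 g hg, hcu v hv.2 g hg, map_zero, sub_zero]
  · intro g
    rw [map_sub, hA0a, pi_i h, sub_zero]
  · intro v hv
    refine ⟨_, hcT v hv, ?_⟩
    intro g hg
    have hi : i (p (A0 g - b v g)) = A0 g - b v g := by
      refine ip_eq h hp ?_
      rw [map_sub, hA0a, (hb v hv).2 g hg, sub_self]
    change A0 g - i (c g) = b v g - i (c g - p (A0 g - b v g))
    rw [map_sub, hi]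
    abel

end Pool.Agent.W522.E
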