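import Pool.Agent.W522.E.E3

/-!
# Negative weights
-/

set_option autoImplicit false
set_option linter.unusedSectionVars false

namespace Pool.Agent.W522.E

open NumberField IsDedekindDomain Polynomial

variable {ℓ : ℕ} [Fact ℓ.Prime] {k : Type} [Field k] [NumberField k]

/-- All Frobenius weights of the representation are negative: for `v` outside `S` and prime to
`ℓ` the eigenvalues of the (arithmetic) Frobenius elements at `v` are algebraic numbers all of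
whose complex conjugates have absolute value `(Nv)^(w/2)` for an integer `w > 0` (which may depend
on the eigenvalue). -/
def NegativeWeights (P : Choice k) (S : Set (HeightOneSpectrum (𝓞 k))) {n : ℕ}
    (ρ : Gk k →* Module.End ℚ_[ℓ] (V ℓ n)) : Prop :=
  ∀ v, v ∉ S → (ℓ : 𝓞 k) ∉ v.asIdeal → ∀ φ, IsFrob P v φ →
    ∀ α : AlgebraicClosure ℚ_[ℓ], aeval α (LinearMap.charpoly (ρ φ)) = 0 →
      IsAlgebraic ℚ α ∧ ∃ w : ℕ, 0 < w ∧
        ∀ z : ℂ, aeval z (minpoly ℚ α) = 0 → ‖z‖ ^ 2 = (Ideal.absNorm v.asIdeal : ℝ) ^ w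

lemma absNorm_gt_one (v : HeightOneSpectrum (𝓞 k)) : 1 < Ideal.absNorm v.asIdeal := by
  have h0 : Ideal.absNorm v.asIdeal ≠ 0 := by
    rw [Ne, Ideal.absNorm_eq_zero_iff]; exact v.ne_bot
  have h1 : Ideal.absNorm v.asIdeal ≠ 1 := by
    rw [Ne, Ideal.absNorm_eq_one_iff]; exact v.isPrime.ne_top
  omega

lemma injective_of_negative {P : Choice k} {S : Set (HeightOneSpectrum (𝓞 k))} {n : ℕ}
    {ρ : Gk k →* Module.End ℚ_[ℓ] (V ℓ n)} (hw : NegativeWeights P S ρ)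
    {v : HeightOneSpectrum (𝓞 k)} (hv : v ∉ S) (hℓ : (ℓ : 𝓞 k) ∉ v.asIdeal) {φ : Gk k}
    (hφ : IsFrob P v φ) {x : V ℓ n} (hx : ρ φ x = x) : x = 0 := by
  by_contra hne
  have h1 : Module.End.HasEigenvalue (ρ φ) (1 : ℚ_[ℓ]) :=
    Module.End.hasEigenvalue_of_hasEigenvector
      (x := x) ⟨Module.End.mem_eigenspace_iff.2 (by rw [hx, one_smul]), hne⟩
  have h2 : (LinearMap.charpoly (ρ φ)).IsRoot 1 :=
    (Module.End.hasEigenvalue_iff_isRoot_charpoly _ _).1 h1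
  have h3 : aeval (1 : AlgebraicClosure ℚ_[ℓ]) (LinearMap.charpoly (ρ φ)) = 0 := by
    have h4 : aeval (algebraMap ℚ_[ℓ] (AlgebraicClosure ℚ_[ℓ]) 1)
        (LinearMap.charpoly (ρ φ)) = 0 := by
      rw [aeval_algebraMap_apply, aeval_def, eval₂_eq_eval_map, Algebra.algebraMap_self, map_id,
        h2.eq_zero, map_zero]
    rwa [map_one] at h4
  obtain ⟨-, w, hw0, hw1⟩ := hw v hv hℓ φ hφ 1 h3
  have h5 := hw1 1 (by
    have : minpoly ℚ (1 : AlgebraicClosure ℚ_[ℓ]) = X - C 1 := minpoly.one ℚ _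
    rw [this]; simp)
  have h6 : (1 : ℝ) < (Ideal.absNorm v.asIdeal : ℝ) := by exact_mod_cast absNorm_gt_one v
  have h7 : (1 : ℝ) < (Ideal.absNorm v.asIdeal : ℝ) ^ w := one_lt_pow₀ h6 (by omega)
  rw [norm_one, one_pow] at h5
  linarith

variable {n m r : ℕ} {ρW : Gk k →* Module.End ℚ_[ℓ] (V ℓ n)}
  {ρB : Gk k →* Module.End ℚ_[ℓ] (V ℓ m)} {ρE : Gk k →* Module.End ℚ_[ℓ] (V ℓ r)}
  {i : V ℓ n →ₗ[ℚ_[ℓ]] V ℓ m} {π : V ℓ m →ₗ[ℚ_[ℓ]] V ℓ r}

lemma noinv_of_negative {P : Choice k} (hF : FrobeniusGenerates P)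
    {S : Set (HeightOneSpectrum (𝓞 k))} (h : Exact3 ρW ρB ρE i π)
    (hw : NegativeWeights P S ρB) {v : HeightOneSpectrum (𝓞 k)} (hv : v ∉ S)
    (hℓ : (ℓ : 𝓞 k) ∉ v.asIdeal) (x : V ℓ r) (hx : ∀ g ∈ Dec P v, ρE g x = x) : x = 0 := by
  obtain ⟨φ, hφ⟩ := (hF v).1
  have hinj : Function.Injective (ρB φ - 1 : Module.End ℚ_[ℓ] (V ℓ m)) := by
    rw [← LinearMap.ker_eq_bot, LinearMap.ker_eq_bot']
    intro y hy
    rw [LinearMap.sub_apply] at hy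
    exact injective_of_negative hw hv hℓ hφ (sub_eq_zero.1 hy)
  have hsurj := LinearMap.surjective_of_injective hinj
  have hsurjE : Function.Surjective (ρE φ - 1 : Module.End ℚ_[ℓ] (V ℓ r)) := by
    intro e
    obtain ⟨b, rfl⟩ := h.surj e
    obtain ⟨c, rfl⟩ := hsurj b
    refine ⟨π c, ?_⟩
    rw [LinearMap.sub_apply, LinearMap.sub_apply, map_sub, h.equivP]
    rfl
  have hinjE := LinearMap.injective_iff_surjective.2 hsurjE
  apply hinjE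
  rw [map_zero, LinearMap.sub_apply]
  change ρE φ x - x = 0
  rw [hx φ hφ.1, sub_self]

/-- Representations with negative weights: the local-global principle. -/
theorem lifting_negative (P : Choice k) (hF : FrobeniusGenerates P)
    (hTD : TateDuality ℓ P) (hTI : TateInertia ℓ P) (h : Exact3 ρW ρB ρE i π)
    (hWc : Cont ρW) (hBc : Cont ρB) (hEc : Cont ρE) (h2 : HasseTwo P ρW)
    (S T : Set (HeightOneSpectrum (𝓞 k))) (hS : S.Finite)
    (Loc : HeightOneSpectrum (𝓞 k) → (Gk k → V ℓ n) → Prop) (h1 : WeakOne P ρW T Loc)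
    (hur : UnramRep P S ρB) (hw : NegativeWeights P S ρB)
    (hℓ : ∀ v : HeightOneSpectrum (𝓞 k), (ℓ : 𝓞 k) ∈ v.asIdeal → v ∈ T)
    (hloc : ∀ v ∈ S, v ∉ T →
      (∀ f : V ℓ n →ₗ[ℚ_[ℓ]] ℚ_[ℓ],
        (∀ g ∈ Dec P v, ∀ x, f (ρW g x) = chi ℓ k g * f x) → f = 0) ∨
      ((∀ x, (∀ g ∈ Dec P v, ρE g x = x) → x = 0) ∧
        ∀ φ, IsFrob P v φ → SemisimpleAt (ρB φ) (chi ℓ k φ)))
    (a : Gk k → V ℓ r) (ha : OneCocycle ⊤ ρE a) (hau : UnramCoc P S a)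
    (b : HeightOneSpectrum (𝓞 k) → Gk k → V ℓ m)
    (hb : ∀ v ∈ T, OneCocycle (Dec P v) ρB (b v) ∧ ∀ g ∈ Dec P v, π (b v g) = a g) :
    ∃ S' : Set (HeightOneSpectrum (𝓞 k)), S'.Finite ∧ ∃ A, OneCocycle ⊤ ρB A ∧
      UnramCoc P S' A ∧ (∀ g, π (A g) = a g) ∧
      ∀ v ∈ T, ∃ y, Loc v y ∧ ∀ g ∈ Dec P v, A g = b v g - i (y g) :=
  lifting P hF hTD hTI h hWc hBc hEc h2 S T hS Loc h1 hur hℓ
    (fun v hvS hvT x hx => noinv_of_negative hF h hw hvS (fun hc => hvT (hℓ v hc)) x hx)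
    hloc a ha hau b hb

end Pool.Agent.W522.E
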